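import Pool.Agent.Lib.MP_75b31c_lc.N40.Iface

set_option autoImplicit false

/-! Module CORE: the core and the contraction (1.8). -/

namespace Pool.Agent.Lib.MP_75b31c_lc.N40.H23

open MeasureTheory Filter

theorem cnt_mono' {N : ℕ} {P Q : ℕ → Prop} (h : ∀ j, j < N → P j → Q j) :
    cnt N P ≤ cnt N Q := by
  classical
  unfold cnt
  apply Finset.card_le_card
  intro j hj
  rw [Finset.mem_filter] at hj ⊢
  exact ⟨hj.1, h j (Finset.mem_range.1 hj.1) hj.2⟩

theorem cnt_mono {N : ℕ} {P Q : ℕ → Prop} (h : ∀ j, P j → Q j) : cnt N P ≤ cnt N Q :=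
  cnt_mono' fun j _ => h j

theorem cnt_or {N : ℕ} {P Q R : ℕ → Prop} (h : ∀ j, P j → Q j ∨ R j) :
    cnt N P ≤ cnt N Q + cnt N R := by
  classical
  unfold cnt
  refine le_trans (Finset.card_le_card ?_) (Finset.card_union_le _ _)
  intro j hj
  rw [Finset.mem_filter] at hj
  rw [Finset.mem_union, Finset.mem_filter, Finset.mem_filter]
  rcases h j hj.2 with h | h
  · exact Or.inl ⟨hj.1, h⟩
  · exact Or.inr ⟨hj.1, h⟩

/-- the sets `N_i` -/
def NI {X : Type} (t : ℕ → X → X) (B : ℕ → Set X) : ℕ → Set X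
  | 0 => {x | (1 / 8 : ℝ) * NN ≤ cnt NN (fun j => x ∈ B j)}
  | i + 1 => {x | (1 / 8 : ℝ) * NN ≤ cnt NN (fun j => x ∈ B j)} ∪
      {x | (1 / 8 : ℝ) * NN ≤ cnt NN (fun j => t j x ∈ NI t B i)}

theorem NI_zero_sub {X : Type} (t : ℕ → X → X) (B : ℕ → Set X) (i : ℕ) :
    NI t B 0 ⊆ NI t B i := by
  cases i with
  | zero => exact subset_rfl
  | succ i => exact Set.subset_union_left

theorem NI_mono_succ {X : Type} (t : ℕ → X → X) (B : ℕ → Set X) (i : ℕ) :
    NI t B i ⊆ NI t B (i + 1) := by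
  induction i with
  | zero => exact NI_zero_sub t B 1
  | succ i ih =>
    intro x hx
    rcases hx with hx | hx
    · exact Or.inl hx
    · refine Or.inr (le_trans (Set.mem_ofPred_eq ▸ hx : (1 / 8 : ℝ) * NN ≤ _) ?_)
      exact_mod_cast cnt_mono (fun j hj => ih hj)

theorem NI_mono {X : Type} (t : ℕ → X → X) (B : ℕ → Set X) : Monotone (NI t B) :=
  monotone_nat_of_le_succ (NI_mono_succ t B)

theorem core : CORE_S := by
  intro hM X _ μ _ D B hB hBq E hE hE0 hEs
  have hNN : (NN : ℝ) = 16384 := by norm_num [NN]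
  have hqq : qq = (1 / 2) ^ 20 := rfl
  -- measurability of the sets `N_i`
  have hcm : ∀ S : Set X, MeasurableSet S →
      MeasurableSet {x | (1 / 8 : ℝ) * NN ≤ cnt NN (fun j => D.t j x ∈ S)} := by
    intro S hS
    exact (hM X μ (fun j => D.t j ⁻¹' S) (fun j => (D.mt j).measurable hS) 1
      (fun j _ => measureReal_le_one) (1 / 8) (by norm_num)).2
  have hN0 := hM X μ B hB qq hBq (1 / 8) (by norm_num)
  have hNm : ∀ i, MeasurableSet (NI D.t B i) := by
    intro i
    induction i with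
    | zero => exact hN0.2
    | succ i ih => exact hN0.2.union (hcm _ ih)
  have hNq : ∀ i, μ.real (NI D.t B i) ≤ 16 * qq := by
    intro i
    induction i with
    | zero =>
      refine le_trans hN0.1 ?_
      rw [hqq]; norm_num
    | succ i ih =>
      have h1 := D.var (NI D.t B i) (hNm i) (1 / 8) (by rw [hqq] at ih; norm_num at ih ⊢; linarith)
      have h2 : 16 * μ.real (NI D.t B i) / (NN * (1 / 8 - μ.real (NI D.t B i)) ^ 2) ≤ 4 * qq := by
        have h0 : 0 ≤ μ.real (NI D.t B i) := measureReal_nonneg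
        have h3 : (1 / 16 : ℝ) ≤ 1 / 8 - μ.real (NI D.t B i) := by
          rw [hqq] at ih; norm_num at ih ⊢; linarith
        have h4 : (1 / 16 : ℝ) ^ 2 ≤ (1 / 8 - μ.real (NI D.t B i)) ^ 2 :=
          pow_le_pow_left₀ (by norm_num) h3 2
        rw [hNN, div_le_iff₀ (by positivity)]
        have hq0 : (0 : ℝ) < qq := by rw [hqq]; positivity
        nlinarith
      calc μ.real (NI D.t B (i + 1)) ≤ _ := measureReal_union_le _ _
        _ ≤ qq / (1 / 8) + 4 * qq := add_le_add hN0.1 (h1.trans h2)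
        _ ≤ 16 * qq := by rw [hqq]; norm_num
  -- the core
  have hU : μ.real (⋃ i, NI D.t B i) ≤ 16 * qq := by
    have h1 : μ (⋃ i, NI D.t B i) = ⨆ i, μ (NI D.t B i) := (NI_mono D.t B).measure_iUnion
    have h2 : μ (⋃ i, NI D.t B i) ≤ ENNReal.ofReal (16 * qq) := by
      rw [h1]
      refine iSup_le fun i => ?_
      rw [← ofReal_measureReal]
      exact ENNReal.ofReal_le_ofReal (hNq i)
    have hq0 : (0 : ℝ) ≤ 16 * qq := by rw [hqq]; positivity
    exact ENNReal.toReal_le_of_le_ofReal hq0 h2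
  obtain ⟨C, hC⟩ : ∃ C : Set X, C = (⋃ i, NI D.t B i)ᶜ := ⟨_, rfl⟩
  have hCm : MeasurableSet C := hC ▸ (MeasurableSet.iUnion hNm).compl
  have hCB : ∀ x ∈ C, (cnt NN (fun j => x ∈ B j) : ℝ) < 1 / 8 * NN := by
    intro x hx
    rw [hC] at hx
    by_contra h
    push Not at h
    exact hx (Set.mem_iUnion.2 ⟨0, h⟩)
  have hCC : ∀ x ∈ C, (cnt NN (fun j => D.t j x ∉ C) : ℝ) < 1 / 8 * NN := by
    intro x hx
    have h1 : ∀ j, ∃ i, D.t j x ∉ C → D.t j x ∈ NI D.t B i := by
      intro j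
      by_cases h : D.t j x ∉ C
      · rw [hC, Set.mem_compl_iff, not_not] at h
        obtain ⟨i, hi⟩ := Set.mem_iUnion.1 h
        exact ⟨i, fun _ => hi⟩
      · exact ⟨0, fun h' => absurd h' h⟩
    choose i hi using h1
    obtain ⟨I, hI⟩ : ∃ I, ∀ j < NN, i j ≤ I :=
      ⟨(Finset.range NN).sup i, fun j hj => Finset.le_sup (f := i) (Finset.mem_range.2 hj)⟩
    have h2 : (cnt NN (fun j => D.t j x ∉ C) : ℝ) ≤ cnt NN (fun j => D.t j x ∈ NI D.t B I) := by
      have : cnt NN (fun j => D.t j x ∉ C) ≤ cnt NN (fun j => D.t j x ∈ NI D.t B I) :=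
        cnt_mono' fun j hj h => NI_mono D.t B (hI j hj) (hi j h)
      exact_mod_cast this
    refine lt_of_le_of_lt h2 ?_
    by_contra h
    push Not at h
    rw [hC] at hx
    exact hx (Set.mem_iUnion.2 ⟨I + 1, Or.inr h⟩)
  -- contraction
  have hF : ∀ n i, μ.real (C ∩ E i n) ≤ 1 / 8 * (1 / 4) ^ i := by
    intro n i
    induction i with
    | zero =>
      refine le_trans (measureReal_mono Set.inter_subset_right) (le_trans (hE0 n) ?_)
      rw [hqq]; norm_num
    | succ i ih =>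
      have h0 : 0 ≤ μ.real (C ∩ E i n) := measureReal_nonneg
      have hp : (1 / 4 : ℝ) ^ i ≤ 1 := pow_le_one₀ (by norm_num) (by norm_num)
      have h8 : μ.real (C ∩ E i n) ≤ 1 / 8 := by linarith
      have h1 := D.var (C ∩ E i n) (hCm.inter (hE i n)) (1 / 4) (by linarith)
      have hsub : C ∩ E (i + 1) n ⊆
          {x | (1 / 4 : ℝ) * NN ≤ cnt NN (fun j => D.t j x ∈ C ∩ E i n)} := by
        intro x hx
        have h2 := hEs i n hx.2
        have h3 : NN ≤ 2 * cnt NN (fun j => x ∈ B j ∨ D.t j x ∈ E i n) := h2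
        have h4 : cnt NN (fun j => x ∈ B j ∨ D.t j x ∈ E i n) ≤ cnt NN (fun j => x ∈ B j) +
            cnt NN (fun j => D.t j x ∉ C ∨ D.t j x ∈ C ∩ E i n) := by
          apply cnt_or
          intro j hj
          rcases hj with hj | hj
          · exact Or.inl hj
          · by_cases hc : D.t j x ∈ C
            · exact Or.inr (Or.inr ⟨hc, hj⟩)
            · exact Or.inr (Or.inl hc)
        have h5 : cnt NN (fun j => D.t j x ∉ C ∨ D.t j x ∈ C ∩ E i n) ≤
            cnt NN (fun j => D.t j x ∉ C) + cnt NN (fun j => D.t j x ∈ C ∩ E i n) :=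
          cnt_or (fun j hj => hj)
        have h6 : (NN : ℝ) ≤ 2 * (cnt NN (fun j => x ∈ B j) +
            (cnt NN (fun j => D.t j x ∉ C) + cnt NN (fun j => D.t j x ∈ C ∩ E i n))) := by
          have : NN ≤ 2 * (cnt NN (fun j => x ∈ B j) +
            (cnt NN (fun j => D.t j x ∉ C) + cnt NN (fun j => D.t j x ∈ C ∩ E i n))) := by
            omega
          exact_mod_cast this
        have h7 := hCB x hx.1
        have h9 := hCC x hx.1
        change (1 / 4 : ℝ) * NN ≤ cnt NN (fun j => D.t j x ∈ C ∩ E i n)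
        linarith
      have h2 : 16 * μ.real (C ∩ E i n) / (NN * (1 / 4 - μ.real (C ∩ E i n)) ^ 2) ≤
          1 / 4 * μ.real (C ∩ E i n) := by
        have h3 : (1 / 8 : ℝ) ≤ 1 / 4 - μ.real (C ∩ E i n) := by linarith
        have h4 : (1 / 8 : ℝ) ^ 2 ≤ (1 / 4 - μ.real (C ∩ E i n)) ^ 2 :=
          pow_le_pow_left₀ (by norm_num) h3 2
        rw [hNN, div_le_iff₀ (by positivity)]
        nlinarith
      calc μ.real (C ∩ E (i + 1) n) ≤ _ := measureReal_mono hsub
        _ ≤ 1 / 4 * μ.real (C ∩ E i n) := h1.trans h2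
        _ ≤ 1 / 8 * (1 / 4) ^ (i + 1) := by rw [pow_succ]; linarith
  -- Borel Cantelli
  have hsum : (∑' n, μ (C ∩ E n n)) ≠ ⊤ := by
    have h1 : ∀ n, μ (C ∩ E n n) ≤ ENNReal.ofReal (1 / 8 * (1 / 4) ^ n) := by
      intro n
      rw [← ofReal_measureReal]
      exact ENNReal.ofReal_le_ofReal (hF n n)
    refine ne_top_of_le_ne_top ?_ (ENNReal.tsum_le_tsum h1)
    have h2 : Summable (fun n : ℕ => (1 / 8 : ℝ) * (1 / 4) ^ n) :=
      (summable_geometric_of_lt_one (by norm_num) (by norm_num)).mul_left _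
    rw [← ENNReal.ofReal_tsum_of_nonneg (fun n => by positivity) h2]
    exact ENNReal.ofReal_ne_top
  have hae := ae_eventually_notMem hsum
  by_contra hcon
  push Not at hcon
  have hC0 : μ C = 0 := by
    apply measure_mono_null _ hae
    intro x hx
    intro h
    apply hcon x
    filter_upwards [h] with n hn
    exact fun hE => hn ⟨hx, hE⟩
  have h1 : μ.real C = 1 - μ.real (⋃ i, NI D.t B i) := by
    rw [hC]
    exact probReal_compl_eq_one_sub (MeasurableSet.iUnion hNm)
  have h2 : μ.real C = 0 := by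
    unfold Measure.real
    rw [hC0]; rfl
  rw [h2] at h1
  rw [hqq] at hU
  norm_num at hU
  linarith

end Pool.Agent.Lib.MP_75b31c_lc.N40.H23
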